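import Mathlib

set_option autoImplicit false
open Classical Finset

namespace Pool.Agent.H.MP_a813b7_co

variable {V : Type} [Fintype V]

/-- weight of a random subset -/
noncomputable def wt (p : ℝ) (f : V → Bool) : ℝ := ∏ v, (if f v = true then p else 1 - p)

theorem wt_nonneg {p : ℝ} (h0 : 0 ≤ p) (h1 : p ≤ 1) (f : V → Bool) : 0 ≤ wt p f :=
  prod_nonneg fun v _ => by split_ifs <;> linarith

theorem wt_sum (p : ℝ) (T : Finset V) :
    ∑ f : V → Bool, (if ∀ v ∈ T, f v = true then wt p f else 0) = p ^ T.card := by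
  have h : ∀ f : V → Bool, (if ∀ v ∈ T, f v = true then wt p f else 0)
      = ∏ v, (if f v = true then p else if v ∈ T then 0 else 1 - p) := by
    intro f
    split_ifs with a
    · apply prod_congr rfl
      intro v _
      by_cases b : f v = true
      · simp [b]
      · rw [if_neg b, if_neg b, if_neg (fun c => b (a v c))]
    · push Not at a
      obtain ⟨v, hv, b⟩ := a
      exact (prod_eq_zero (mem_univ v) (by rw [if_neg b, if_pos hv])).symm
  simp only [h]
  have := Fintype.prod_sum (fun (v : V) (b : Bool) =>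
    (if b = true then p else if v ∈ T then (0:ℝ) else 1 - p))
  rw [← this]
  have e : ∀ v : V, ∑ b : Bool, (if b = true then p else if v ∈ T then (0:ℝ) else 1 - p)
      = if v ∈ T then p else 1 := by
    intro v
    by_cases c : v ∈ T <;> simp [c]
  simp only [e]
  rw [prod_ite_mem, univ_inter, prod_const]

/-- abstract crossing structure -/
structure CS (U : Finset (V × V)) (cr : V × V → V × V → Prop) : Prop where
  symm : ∀ e f, cr e f → cr f e
  two : ∀ e ∈ U, ({e.1, e.2} : Finset V).card = 2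
  four : ∀ e ∈ U, ∀ f ∈ U, cr e f → ({e.1, e.2, f.1, f.2} : Finset V).card = 4
  plan : ∀ (S : Finset V) (E : Finset (V × V)), E ⊆ U → (∀ e ∈ E, e.1 ∈ S ∧ e.2 ∈ S) →
    (∀ e ∈ E, ∀ f ∈ E, ¬ cr e f) → E.card ≤ 3 * S.card

theorem weak {U : Finset (V × V)} {cr : V × V → V × V → Prop} (h : CS U cr) (S : Finset V)
    (E : Finset (V × V)) (hE : E ⊆ U) (hS : ∀ e ∈ E, e.1 ∈ S ∧ e.2 ∈ S) :
    E.card ≤ 3 * S.card + ((E ×ˢ E).filter (fun q => cr q.1 q.2)).card := by
  have h1 := h.plan S (E.filter (fun e => ¬ ∃ f ∈ E, cr e f)) ((filter_subset _ _).trans hE)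
    (fun e he => hS e (mem_filter.mp he).1)
    (fun e he f hf c => (mem_filter.mp he).2 ⟨f, (mem_filter.mp hf).1, c⟩)
  have h2 : (E.filter (fun e => ∃ f ∈ E, cr e f)).card
      ≤ ((E ×ˢ E).filter (fun q => cr q.1 q.2)).card := by
    apply card_le_card_of_surjOn Prod.fst
    intro e he
    obtain ⟨a, f, b, c⟩ := mem_filter.mp (mem_coe.mp he)
    exact ⟨(e, f), mem_coe.mpr (mem_filter.mpr ⟨mem_product.mpr ⟨a, b⟩, c⟩), rfl⟩
  have h3 := card_filter_add_card_filter_not (s := E) (fun e => ∃ f ∈ E, cr e f)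
  omega

theorem crossing {U : Finset (V × V)} {cr : V × V → V × V → Prop} (h : CS U cr)
    (E : Finset (V × V)) (hE : E ⊆ U) (p : ℝ) (h0 : 0 ≤ p) (h1 : p ≤ 1) :
    (E.card : ℝ) * p ^ 2 ≤ 3 * (Fintype.card V * p)
      + ((E ×ˢ E).filter (fun q => cr q.1 q.2)).card * p ^ 4 := by
  set X := (E ×ˢ E).filter (fun q => cr q.1 q.2) with hX
  have a1 : (E.card : ℝ) * p ^ 2 = ∑ f : V → Bool, ∑ e ∈ E,
      (if ∀ v ∈ ({e.1, e.2} : Finset V), f v = true then wt p f else 0) := by
    rw [sum_comm, ← nsmul_eq_mul, ← sum_const]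
    apply sum_congr rfl
    intro e he
    rw [wt_sum, h.two e (hE he)]
  have a2 : (Fintype.card V : ℝ) * p = ∑ f : V → Bool, ∑ u : V,
      (if ∀ v ∈ ({u} : Finset V), f v = true then wt p f else 0) := by
    rw [sum_comm, ← nsmul_eq_mul, ← card_univ, ← sum_const]
    apply sum_congr rfl
    intro e _
    rw [wt_sum, card_singleton, pow_one]
  have a3 : (X.card : ℝ) * p ^ 4 = ∑ f : V → Bool, ∑ q ∈ X,
      (if ∀ v ∈ ({q.1.1, q.1.2, q.2.1, q.2.2} : Finset V), f v = true then wt p f else 0) := by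
    rw [sum_comm, ← nsmul_eq_mul, ← sum_const]
    apply sum_congr rfl
    intro q hq
    obtain ⟨b, c⟩ := mem_filter.mp hq
    obtain ⟨b1, b2⟩ := mem_product.mp b
    rw [wt_sum, h.four _ (hE b1) _ (hE b2) c]
  rw [a1, a2, a3, mul_sum, ← sum_add_distrib]
  apply sum_le_sum
  intro f _
  rw [← sum_filter, ← sum_filter, ← sum_filter, sum_const, sum_const, sum_const,
    nsmul_eq_mul, nsmul_eq_mul, nsmul_eq_mul, ← mul_assoc, ← add_mul]
  apply mul_le_mul_of_nonneg_right _ (wt_nonneg h0 h1 f)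
  set E' := E.filter (fun e => ∀ v ∈ ({e.1, e.2} : Finset V), f v = true) with hE'
  have w := weak h (univ.filter (fun u => ∀ v ∈ ({u} : Finset V), f v = true)) E'
    ((filter_subset _ _).trans hE) (by
      intro e he
      have := (mem_filter.mp he).2
      simp only [mem_insert, mem_singleton, forall_eq_or_imp, forall_eq] at this
      simp only [mem_filter, mem_univ, true_and, mem_singleton, forall_eq]
      exact this)
  have w2 : ((E' ×ˢ E').filter (fun q => cr q.1 q.2)).card ≤ (X.filter (fun q =>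
      ∀ v ∈ ({q.1.1, q.1.2, q.2.1, q.2.2} : Finset V), f v = true)).card := by
    apply card_le_card
    intro q hq
    obtain ⟨b, c⟩ := mem_filter.mp hq
    obtain ⟨b1, b2⟩ := mem_product.mp b
    obtain ⟨c1, d1⟩ := mem_filter.mp b1
    obtain ⟨c2, d2⟩ := mem_filter.mp b2
    refine mem_filter.mpr ⟨mem_filter.mpr ⟨mem_product.mpr ⟨c1, c2⟩, c⟩, ?_⟩
    simp only [mem_insert, mem_singleton, forall_eq_or_imp, forall_eq] at d1 d2 ⊢
    exact ⟨d1.1, d1.2, d2.1, d2.2⟩
  have := w.trans (Nat.add_le_add_left w2 _)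
  exact_mod_cast this

theorem heavy {U : Finset (V × V)} {cr : V × V → V × V → Prop} (h : CS U cr)
    (E : Finset (V × V)) (hE : E ⊆ U) (k : ℝ) (hk : 1 ≤ k)
    (hm : 4 * Fintype.card V * k < E.card) :
    ∃ e ∈ E, k ^ 2 / 4 ≤ (E.filter (fun f => cr e f)).card := by
  by_contra hc
  push Not at hc
  have kp : 0 < k := by linarith
  have hN : (0:ℝ) ≤ Fintype.card V := Nat.cast_nonneg _
  have mp : (0:ℝ) < E.card := lt_of_le_of_lt (by positivity) hm
  have c1 := crossing h E hE k⁻¹ (by positivity) (inv_le_one_of_one_le₀ hk)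
  have c2 : (((E ×ˢ E).filter (fun q => cr q.1 q.2)).card : ℝ) ≤ E.card * (k ^ 2 / 4) := by
    rw [card_filter, sum_product, ← nsmul_eq_mul, ← sum_const]
    push_cast
    apply sum_le_sum
    intro e he
    have := (hc e he).le
    rw [card_filter] at this
    push_cast at this
    exact this
  have c3 : (E.card : ℝ) * k⁻¹ ^ 2 ≤ 3 * (Fintype.card V * k⁻¹) + E.card * (k ^ 2 / 4) * k⁻¹ ^ 4 :=
    c1.trans (by gcongr)
  have c4 : (E.card : ℝ) * k⁻¹ ^ 2 * k ^ 2 ≤
      (3 * (Fintype.card V * k⁻¹) + E.card * (k ^ 2 / 4) * k⁻¹ ^ 4) * k ^ 2 := by gcongr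
  have e1 : (E.card : ℝ) * k⁻¹ ^ 2 * k ^ 2 = E.card := by field_simp
  have e2 : (3 * (Fintype.card V * k⁻¹) + E.card * (k ^ 2 / 4) * k⁻¹ ^ 4) * k ^ 2
      = 3 * (Fintype.card V * k) + E.card / 4 := by field_simp
  rw [e1, e2] at c4
  linarith

/-- the crossing-free subsets -/
noncomputable def NC (cr : V × V → V × V → Prop) (E : Finset (V × V)) : Finset (Finset (V × V)) :=
  E.powerset.filter (fun F => ∀ e ∈ F, ∀ f ∈ F, ¬ cr e f)

theorem NC_step (cr : V × V → V × V → Prop) (E : Finset (V × V)) (e : V × V) :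
    (NC cr E).card ≤ (NC cr (E.erase e)).card
      + (NC cr ((E.erase e).filter (fun f => ¬ cr e f))).card := by
  have h3 := card_filter_add_card_filter_not (s := NC cr E) (fun F => e ∈ F)
  have h1 : ((NC cr E).filter (fun F => ¬ e ∈ F)).card ≤ (NC cr (E.erase e)).card := by
    apply card_le_card
    intro F hF
    obtain ⟨a, b⟩ := mem_filter.mp hF
    obtain ⟨c, d⟩ := mem_filter.mp a
    refine mem_filter.mpr ⟨mem_powerset.mpr ?_, d⟩
    intro f hf
    exact mem_erase.mpr ⟨fun q => b (q ▸ hf), mem_powerset.mp c hf⟩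
  have h2 : ((NC cr E).filter (fun F => e ∈ F)).card
      ≤ (NC cr ((E.erase e).filter (fun f => ¬ cr e f))).card := by
    apply card_le_card_of_injOn (fun F => F.erase e)
    · intro F hF
      obtain ⟨a, b⟩ := mem_filter.mp (mem_coe.mp hF)
      obtain ⟨c, d⟩ := mem_filter.mp a
      refine mem_coe.mpr (mem_filter.mpr ⟨mem_powerset.mpr ?_, ?_⟩)
      · intro f hf
        obtain ⟨q1, q2⟩ := mem_erase.mp hf
        exact mem_filter.mpr ⟨mem_erase.mpr ⟨q1, mem_powerset.mp c q2⟩, d e b f q2⟩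
      · intro f hf g hg
        exact d f (mem_of_mem_erase hf) g (mem_of_mem_erase hg)
    · intro F hF G hG q
      have a := (mem_filter.mp (mem_coe.mp hF)).2
      have b := (mem_filter.mp (mem_coe.mp hG)).2
      rw [← insert_erase a, ← insert_erase b]
      exact congrArg _ q
  omega

theorem binom (x : ℝ) (hx : 0 ≤ x) (d : ℕ) : (d : ℝ) * (d - 1) / 2 * x ^ 2 ≤ (1 + x) ^ d := by
  have : ∀ d : ℕ, 1 + d * x + (d : ℝ) * (d - 1) / 2 * x ^ 2 ≤ (1 + x) ^ d := by
    intro d
    induction d with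
    | zero => simp
    | succ d ih =>
      have h1 : (0:ℝ) ≤ (d : ℝ) * (d - 1) := by
        rcases Nat.eq_zero_or_pos d with rfl | h
        · simp
        · have : (1:ℝ) ≤ d := by exact_mod_cast h
          nlinarith
      have h2 : 0 ≤ (d : ℝ) * (d - 1) / 2 * x ^ 3 := by positivity
      have h3 := mul_le_mul_of_nonneg_right ih (by linarith : 0 ≤ 1 + x)
      rw [pow_succ (1 + x)]
      push_cast
      nlinarith
  have h := this d
  have : 0 ≤ (d : ℝ) * x := by positivity
  linarith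

theorem level {U : Finset (V × V)} {cr : V × V → V × V → Prop} (h : CS U cr) (s : ℕ)
    (G : ℝ) (hG : ∀ E ⊆ U, (E.card : ℝ) ≤ 4 * Fintype.card V * 8 ^ (s + 1) → (NC cr E).card ≤ G) :
    ∀ E ⊆ U, ((NC cr E).card : ℝ) ≤ G * (1 + 4 / 16 ^ (s + 1)) ^ E.card := by
  set x : ℝ := 4 / 16 ^ (s + 1) with hx
  have xp : 0 < x := by positivity
  have G0 : 0 ≤ G := le_trans (Nat.cast_nonneg _) (hG ∅ (empty_subset _) (by simp))
  intro E
  induction' hm : E.card using Nat.strong_induction_on with m ih generalizing E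
  intro hE
  by_cases a : (E.card : ℝ) ≤ 4 * Fintype.card V * 8 ^ (s + 1)
  · exact (hG E hE a).trans (le_mul_of_one_le_right G0 (one_le_pow₀ (by linarith)))
  obtain ⟨e, he, hd⟩ := heavy h E hE (8 ^ (s + 1)) (one_le_pow₀ (by norm_num)) (not_le.mp a)
  set d := (E.filter (fun f => cr e f)).card with hdd
  have ne : ¬ cr e e := fun c => by
    have := h.four e (hE he) e (hE he) c
    have t : ({e.1, e.2, e.1, e.2} : Finset V) = {e.1, e.2} := by ext; simp
    rw [t, h.two e (hE he)] at this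
    omega
  have c1 : (E.erase e).card + 1 = m := by rw [← hm]; exact card_erase_add_one he
  have c2 : ((E.erase e).filter (fun f => ¬ cr e f)).card + d = (E.erase e).card := by
    have := card_filter_add_card_filter_not (s := E.erase e) (fun f => cr e f)
    have t : (E.erase e).filter (fun f => cr e f) = E.filter (fun f => cr e f) := by
      ext f
      simp only [mem_filter, mem_erase]
      constructor
      · rintro ⟨⟨_, b⟩, c⟩; exact ⟨b, c⟩
      · rintro ⟨b, c⟩; exact ⟨⟨fun q => ne (q ▸ c), b⟩, c⟩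
    rw [t] at this
    omega
  have i1 := ih _ (by omega) (E.erase e) rfl ((erase_subset _ _).trans hE)
  have i2 := ih _ (by omega) ((E.erase e).filter (fun f => ¬ cr e f)) rfl
    ((filter_subset _ _).trans ((erase_subset _ _).trans hE))
  have st : ((NC cr E).card : ℝ) ≤ (NC cr (E.erase e)).card
      + (NC cr ((E.erase e).filter (fun f => ¬ cr e f))).card := by exact_mod_cast NC_step cr E e
  have key : 1 ≤ x * (1 + x) ^ d := by
    have b := binom x xp.le d
    set t : ℝ := 2 ^ (s + 1) with ht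
    have t2 : 2 ≤ t := by
      rw [ht, pow_succ]; have : (1:ℝ) ≤ 2 ^ s := one_le_pow₀ (by norm_num); linarith
    have e8 : (8:ℝ) ^ (s + 1) = t ^ 3 := by rw [ht, ← pow_mul, mul_comm, pow_mul]; norm_num
    have e16 : (16:ℝ) ^ (s + 1) = t ^ 4 := by rw [ht, ← pow_mul, mul_comm, pow_mul]; norm_num
    rw [e8] at hd
    have tp : 0 < t := by linarith
    have t6 : 64 ≤ t ^ 6 := by
      calc (64:ℝ) = 2 ^ 6 := by norm_num
        _ ≤ t ^ 6 := by gcongr
    have hd' : t ^ 6 / 4 ≤ d := by rw [← pow_mul] at hd; exact hd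
    have d2 : (t ^ 6 / 4) ^ 2 / 4 ≤ (d : ℝ) * (d - 1) / 2 := by nlinarith
    have e : x * ((t ^ 6 / 4) ^ 2 / 4 * x ^ 2) = 1 := by
      rw [hx, e16]; field_simp
    calc (1:ℝ) = x * ((t ^ 6 / 4) ^ 2 / 4 * x ^ 2) := e.symm
      _ ≤ x * ((d : ℝ) * (d - 1) / 2 * x ^ 2) := by gcongr
      _ ≤ _ := by gcongr
  set j := ((E.erase e).filter (fun f => ¬ cr e f)).card with hj
  rw [← c1, ← c2]
  rw [← c2] at i1
  have p1 : 0 ≤ G * (1 + x) ^ j := by positivity
  have := mul_le_mul_of_nonneg_left key p1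
  rw [pow_succ, pow_add] at *
  nlinarith

theorem NC_le {U : Finset (V × V)} {cr : V × V → V × V → Prop} (h : CS U cr) :
    ((NC cr U).card : ℝ) ≤ (2 ^ 32 * Real.exp 128) ^ Fintype.card V := by
  set N := Fintype.card V with hN
  have main : ∀ s : ℕ, ∀ E ⊆ U, (E.card : ℝ) ≤ 4 * N * 8 ^ (s + 1) →
      ((NC cr E).card : ℝ) ≤ 2 ^ (32 * N) * Real.exp (128 * N * (1 - (1 / 2) ^ s)) := by
    intro s
    induction s with
    | zero =>
      intro E _ hE
      have h1 : E.card ≤ 32 * N := by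
        have : (E.card : ℝ) ≤ 32 * N := by norm_num at hE; linarith
        exact_mod_cast this
      have h2 : (NC cr E).card ≤ 2 ^ (32 * N) :=
        (card_filter_le _ _).trans (by rw [card_powerset]; exact Nat.pow_le_pow_right (by norm_num) h1)
      simp only [pow_zero, sub_self, mul_zero, Real.exp_zero, mul_one]
      exact_mod_cast h2
    | succ s ih =>
      intro E hE hc
      refine (level h s _ ih E hE).trans ?_
      rw [mul_assoc]
      apply mul_le_mul_of_nonneg_left _ (by positivity)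
      have a1 : (1 + 4 / 16 ^ (s + 1) : ℝ) ^ E.card ≤ Real.exp (E.card * (4 / 16 ^ (s + 1))) := by
        rw [Real.exp_nat_mul]
        apply pow_le_pow_left₀ (by positivity)
        rw [add_comm]; exact Real.add_one_le_exp _
      refine (mul_le_mul_of_nonneg_left a1 (Real.exp_pos _).le).trans ?_
      rw [← Real.exp_add]
      apply Real.exp_le_exp.mpr
      have a2 : (E.card : ℝ) * (4 / 16 ^ (s + 1)) ≤ 4 * N * 8 ^ (s + 1 + 1) * (4 / 16 ^ (s + 1)) := by
        gcongr
      have a3 : (4:ℝ) * N * 8 ^ (s + 1 + 1) * (4 / 16 ^ (s + 1)) = 128 * N * (1 / 2) ^ (s + 1) := by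
        have : (16:ℝ) ^ (s + 1) = 8 ^ (s + 1) * 2 ^ (s + 1) := by rw [← mul_pow]; norm_num
        rw [this, pow_succ (8:ℝ) (s + 1), one_div, inv_pow]
        field_simp
        ring
      rw [a3] at a2
      rw [pow_succ (1 / 2 : ℝ) s] at a2 ⊢
      linarith
  have hU : (U.card : ℝ) ≤ 4 * N * 8 ^ (N + 1) := by
    have a1 : U.card ≤ N * N := by
      have := card_le_univ U
      rwa [Fintype.card_prod] at this
    have a2 : N ≤ 4 * 8 ^ (N + 1) := by
      have : N < 8 ^ N := Nat.lt_pow_self (by norm_num)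
      rw [pow_succ]; omega
    have : U.card ≤ 4 * N * 8 ^ (N + 1) := by nlinarith
    exact_mod_cast this
  refine (main N U (Subset.refl _) hU).trans ?_
  rw [mul_pow, ← pow_mul, ← Real.exp_nat_mul]
  apply mul_le_mul_of_nonneg_left _ (by positivity)
  apply Real.exp_le_exp.mpr
  have : (0:ℝ) ≤ 128 * N * (1 / 2) ^ N := by positivity
  linarith

end Pool.Agent.H.MP_a813b7_co
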