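import Mathlib
import Pool.Agent.H.MP_a813b7_co.Abs

set_option autoImplicit false
open Classical Finset

namespace Pool.Agent.H.MP_a813b7_co

variable {N : ℕ}

noncomputable def sl (x y : Fin N → ℝ) (e : Fin N × Fin N) : ℝ := (y e.2 - y e.1) / (x e.2 - x e.1)
noncomputable def ht (x y : Fin N → ℝ) (e : Fin N × Fin N) (t : ℝ) : ℝ :=
  y e.1 + sl x y e * (t - x e.1)
def crs (x y : Fin N → ℝ) (e f : Fin N × Fin N) : Prop :=
  e ≠ f ∧ ∃ t, x e.1 < t ∧ t < x e.2 ∧ x f.1 < t ∧ t < x f.2 ∧ ht x y e t = ht x y f t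
def UU (N : ℕ) : Finset (Fin N × Fin N) := univ.filter (fun e => e.1 < e.2)
def GP (x y : Fin N → ℝ) : Prop :=
  ∀ e : Fin N × Fin N, e.1 < e.2 → ∀ j, j ≠ e.1 → j ≠ e.2 → ht x y e (x j) ≠ y j

theorem ht1 (x y : Fin N → ℝ) (e : Fin N × Fin N) : ht x y e (x e.1) = y e.1 := by simp [ht]

theorem ht2 {x : Fin N → ℝ} (hx : StrictMono x) (y : Fin N → ℝ) {e : Fin N × Fin N}
    (h : e.1 < e.2) : ht x y e (x e.2) = y e.2 := by
  have : x e.2 - x e.1 ≠ 0 := (sub_pos.mpr (hx h)).ne'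
  unfold ht sl; field_simp; ring

theorem ivt (x y : Fin N → ℝ) (e f : Fin N × Fin N) {s t : ℝ} (h : s < t)
    (h1 : ht x y e s < ht x y f s) (h2 : ht x y f t < ht x y e t) :
    ∃ u, s < u ∧ u < t ∧ ht x y e u = ht x y f u := by
  have c : ContinuousOn (fun u => ht x y e u - ht x y f u) (Set.Icc s t) := by
    unfold ht; fun_prop
  obtain ⟨u, hu, e0⟩ := intermediate_value_Ioo h.le c (show (0:ℝ) ∈ Set.Ioo _ _ from
    ⟨sub_neg.mpr h1, sub_pos.mpr h2⟩)
  exact ⟨u, hu.1, hu.2, sub_eq_zero.mp e0⟩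

theorem agree (x y : Fin N → ℝ) (e f : Fin N × Fin N) {s t : ℝ} (h : s ≠ t)
    (h1 : ht x y e s = ht x y f s) (h2 : ht x y e t = ht x y f t) (u : ℝ) :
    ht x y e u = ht x y f u := by
  unfold ht at *
  have : (sl x y e - sl x y f) * (s - t) = 0 := by linarith
  have q : sl x y e = sl x y f := sub_eq_zero.mp ((mul_eq_zero.mp this).resolve_right (sub_ne_zero.mpr h))
  rw [q] at h1 ⊢
  linarith

theorem same {x y : Fin N → ℝ} (hx : StrictMono x) (g : GP x y) {e f : Fin N × Fin N}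
    (he : e.1 < e.2) (hf : f.1 < f.2) (h : ∀ u, ht x y e u = ht x y f u) : e = f := by
  have a1 : f.1 = e.1 ∨ f.1 = e.2 := by
    by_contra c; push Not at c
    exact g e he _ c.1 c.2 (by rw [h, ht1])
  have a2 : f.2 = e.1 ∨ f.2 = e.2 := by
    by_contra c; push Not at c
    exact g e he _ c.1 c.2 (by rw [h, ht2 hx y hf])
  apply Prod.ext <;> omega

theorem wedge {x y : Fin N → ℝ} (hx : StrictMono x) (g : GP x y) {S : Finset (Fin N)}
    {E : Finset (Fin N × Fin N)} (hE : E ⊆ UU N) (hS : ∀ e ∈ E, e.1 ∈ S ∧ e.2 ∈ S)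
    (hn : ∀ e ∈ E, ∀ f ∈ E, ¬ crs x y e f) {e e' : Fin N × Fin N} (he : e ∈ E) (he' : e' ∈ E)
    (h1 : e'.1 = e.1) (hb : ∀ f ∈ E, f.1 = e.1 → sl x y e < sl x y f → sl x y e' ≤ sl x y f)
    {w : Fin N} (w1 : e.1 < w) (w2 : w ≤ e.2) (w3 : w ≤ e'.2)
    (hw : ∀ u ∈ S, e.1 < u → u < w → ¬ (ht x y e (x u) ≤ y u ∧ y u ≤ ht x y e' (x u)))
    {f : Fin N × Fin N} (hf : f ∈ E) (f1 : f.1 < w) (f2 : w ≤ f.2)
    (a : ht x y e (x w) < ht x y f (x w)) (b : ht x y f (x w) < ht x y e' (x w)) : False := by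
  have xw := hx w1
  have x2 := hx.monotone w2
  have x3 := hx.monotone w3
  have x4 := hx.monotone f2
  rcases lt_trichotomy f.1 e.1 with c | c | c
  · have xc := hx c
    have := g f (mem_filter.mp (hE hf)).2 e.1 c.ne' (by omega)
    rcases lt_or_gt_of_ne this with d | d
    · obtain ⟨u, u1, u2, u3⟩ := ivt x y f e xw (by rw [ht1]; exact d) a
      exact hn f hf e he ⟨fun q => c.ne (congrArg _ q), u, by linarith, by linarith, u1,
        by linarith, u3⟩
    · obtain ⟨u, u1, u2, u3⟩ := ivt x y e' f xw (by rw [← h1, ht1, h1]; exact d) b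
      exact hn e' he' f hf ⟨fun q => c.ne (by rw [← q, h1]), u, by rw [h1]; exact u1,
        by linarith, by linarith, by linarith, u3⟩
  · unfold ht at a b
    rw [c] at a b
    rw [h1] at b
    have p := sub_pos.mpr xw
    have s1 : sl x y e < sl x y f := lt_of_mul_lt_mul_right (by linarith) p.le
    have s2 : sl x y f < sl x y e' := lt_of_mul_lt_mul_right (by linarith) p.le
    exact absurd (hb f hf c s1) (not_le.mpr s2)
  · have xc := hx c
    have := hw f.1 (hS f hf).1 c f1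
    rw [not_and_or, not_le, not_le] at this
    rcases this with d | d
    · obtain ⟨u, u1, u2, u3⟩ := ivt x y f e (hx f1) (by rw [ht1]; exact d) a
      exact hn f hf e he ⟨fun q => c.ne' (congrArg _ q), u, u1, by linarith, by linarith,
        by linarith, u3⟩
    · obtain ⟨u, u1, u2, u3⟩ := ivt x y e' f (hx f1) (by rw [ht1]; exact d) b
      exact hn e' he' f hf ⟨fun q => c.ne' (by rw [← q, h1]), u, by rw [h1]; linarith,
        by linarith, u1, by linarith, u3⟩

theorem planar {x y : Fin N → ℝ} (hx : StrictMono x) (g : GP x y) (S : Finset (Fin N))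
    (E : Finset (Fin N × Fin N)) (hE : E ⊆ UU N) (hS : ∀ e ∈ E, e.1 ∈ S ∧ e.2 ∈ S)
    (hn : ∀ e ∈ E, ∀ f ∈ E, ¬ crs x y e f) : E.card ≤ 3 * S.card := by
  have lt : ∀ e ∈ E, e.1 < e.2 := fun e he => (mem_filter.mp (hE he)).2
  have ex : ∀ e : Fin N × Fin N, ∃ e' : Fin N × Fin N, ∃ w : Fin N,
      e ∈ E → (∃ f ∈ E, f.1 = e.1 ∧ sl x y e < sl x y f) →
      e' ∈ E ∧ e'.1 = e.1 ∧ sl x y e < sl x y e' ∧
      (∀ f ∈ E, f.1 = e.1 → sl x y e < sl x y f → sl x y e' ≤ sl x y f) ∧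
      w ∈ S ∧ e.1 < w ∧ w ≤ e.2 ∧ w ≤ e'.2 ∧
      ht x y e (x w) ≤ y w ∧ y w ≤ ht x y e' (x w) ∧
      (∀ u ∈ S, e.1 < u → u < w → ¬ (ht x y e (x u) ≤ y u ∧ y u ≤ ht x y e' (x u))) := by
    intro e
    by_cases c : e ∈ E ∧ ∃ f ∈ E, f.1 = e.1 ∧ sl x y e < sl x y f
    swap
    · exact ⟨e, e.1, fun a b => absurd ⟨a, b⟩ c⟩
    obtain ⟨he, f, hf, f1, f2⟩ := c
    obtain ⟨e', q1, q2⟩ := exists_min_image (E.filter (fun f => f.1 = e.1 ∧ sl x y e < sl x y f))
      (sl x y) ⟨f, mem_filter.mpr ⟨hf, f1, f2⟩⟩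
    obtain ⟨r1, r2, r3⟩ := mem_filter.mp q1
    have mono : ∀ u, e.1 < u → ht x y e (x u) ≤ ht x y e' (x u) := by
      intro u hu
      unfold ht
      rw [r2]
      have := mul_le_mul_of_nonneg_right r3.le (sub_pos.mpr (hx hu)).le
      linarith
    have m1 : e.2 ∈ S.filter (fun u => e.1 < u ∧ ht x y e (x u) ≤ y u ∧ y u ≤ ht x y e' (x u)) :=
      mem_filter.mpr ⟨(hS e he).2, lt e he, (ht2 hx y (lt e he)).le,
        (ht2 hx y (lt e he)).ge.trans (mono _ (lt e he))⟩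
    have m2 : e'.2 ∈ S.filter (fun u => e.1 < u ∧ ht x y e (x u) ≤ y u ∧ y u ≤ ht x y e' (x u)) :=
      mem_filter.mpr ⟨(hS e' r1).2, r2 ▸ lt e' r1,
        (mono _ (r2 ▸ lt e' r1)).trans (ht2 hx y (lt e' r1)).le, (ht2 hx y (lt e' r1)).ge⟩
    obtain ⟨w, s1, s2⟩ := exists_min_image _ id ⟨_, m1⟩
    obtain ⟨t1, t2, t3, t4⟩ := mem_filter.mp s1
    refine ⟨e', w, fun _ _ => ⟨r1, r2, r3, fun f a b c => q2 f (mem_filter.mpr ⟨a, b, c⟩), t1, t2,
      s2 _ m1, s2 _ m2, t3, t4, ?_⟩⟩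
    intro u a b c d
    exact absurd (s2 u (mem_filter.mpr ⟨a, b, d⟩)) (not_le.mpr c)
  choose nx w hw using ex
  set T : Fin N × Fin N → Prop := fun e => ∃ f ∈ E, f.1 = e.1 ∧ sl x y e < sl x y f with hT
  have k1 := card_filter_add_card_filter_not (s := E) T
  have k2 := card_filter_add_card_filter_not (s := E.filter T) (fun e => w e = e.2)
  have c1 : (E.filter (fun e => ¬ T e)).card ≤ S.card := by
    apply card_le_card_of_injOn Prod.fst
    · intro e he
      exact mem_coe.mpr (hS e (mem_filter.mp (mem_coe.mp he)).1).1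
    · intro e he f hf q
      obtain ⟨a1, a2⟩ := mem_filter.mp (mem_coe.mp he)
      obtain ⟨b1, b2⟩ := mem_filter.mp (mem_coe.mp hf)
      have s1 : ¬ sl x y e < sl x y f := fun h => a2 ⟨f, b1, q.symm, h⟩
      have s2 : ¬ sl x y f < sl x y e := fun h => b2 ⟨e, a1, q, h⟩
      apply same hx g (lt e a1) (lt f b1)
      intro u
      unfold ht
      rw [q, le_antisymm (not_lt.mp s2) (not_lt.mp s1)]
  have c2 : ((E.filter T).filter (fun e => w e = e.2)).card ≤ S.card := by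
    have above : ∀ e ∈ E, T e → w e = e.2 →
        w e < (nx e).2 ∧ ht x y e (x (w e)) = y (w e) ∧ y (w e) < ht x y (nx e) (x (w e)) := by
      intro e he t q
      obtain ⟨a1, a2, a3, a4, a5, a6, a7, a8, a9, a10, a11⟩ := hw e he t
      have n : w e ≠ (nx e).2 := by
        intro r
        have : nx e = e := Prod.ext a2 (by rw [← r, q])
        rw [this] at a3; exact lt_irrefl _ a3
      refine ⟨lt_of_le_of_ne a8 n, by rw [q]; exact ht2 hx y (lt e he), lt_of_le_of_ne a10 ?_⟩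
      exact (g _ (lt _ a1) _ (by rw [a2]; exact a6.ne') n).symm
    have half : ∀ e ∈ E, T e → w e = e.2 → ∀ f ∈ E, T f → w f = f.2 → w e = w f →
        ¬ ht x y (nx f) (x (w e)) < ht x y (nx e) (x (w e)) := by
      intro e he t q f hf t' q' r h
      obtain ⟨a1, a2, a3, a4, a5, a6, a7, a8, a9, a10, a11⟩ := hw e he t
      obtain ⟨b1, b2, b3, b4, b5, b6, b7, b8, b9, b10, b11⟩ := hw f hf t'
      obtain ⟨_, c2, _⟩ := above e he t q
      obtain ⟨_, _, d3⟩ := above f hf t' q'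
      exact wedge hx g hE hS hn he a1 a2 a4 a6 a7 a8 a11 b1 (by rw [b2, r]; exact b6)
        (by rw [r]; exact b8) (by rw [c2, r]; exact d3) h
    apply card_le_card_of_injOn w
    · intro e he
      obtain ⟨a, _⟩ := mem_filter.mp (mem_coe.mp he)
      obtain ⟨a1, a2⟩ := mem_filter.mp a
      exact mem_coe.mpr (hw e a1 a2).2.2.2.2.1
    · intro e he f hf r
      obtain ⟨a, q⟩ := mem_filter.mp (mem_coe.mp he)
      obtain ⟨he, t⟩ := mem_filter.mp a
      obtain ⟨b, q'⟩ := mem_filter.mp (mem_coe.mp hf)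
      obtain ⟨hf, t'⟩ := mem_filter.mp b
      have h1 := half e he t q f hf t' q' r
      have h2 := half f hf t' q' e he t q r.symm
      rw [← r] at h2
      obtain ⟨a1, a2, a3, a4, a5, a6, a7, a8, a9, a10, a11⟩ := hw e he t
      obtain ⟨b1, b2, b3, b4, b5, b6, b7, b8, b9, b10, b11⟩ := hw f hf t'
      have : nx e = nx f := by
        by_contra n
        exact hn _ a1 _ b1 ⟨n, x (w e), hx (by rw [a2]; exact a6), hx (above e he t q).1,
          hx (by rw [b2, r]; exact b6), hx (by rw [r]; exact (above f hf t' q').1),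
          le_antisymm (not_lt.mp h1) (not_lt.mp h2)⟩
      exact Prod.ext (by rw [← a2, this, b2]) (by rw [← q, r, q'])
  have c3 : ((E.filter T).filter (fun e => ¬ w e = e.2)).card ≤ S.card := by
    have below : ∀ e ∈ E, T e → ¬ w e = e.2 →
        w e < e.2 ∧ ht x y e (x (w e)) < y (w e) := by
      intro e he t q
      obtain ⟨a1, a2, a3, a4, a5, a6, a7, a8, a9, a10, a11⟩ := hw e he t
      exact ⟨lt_of_le_of_ne a7 q, lt_of_le_of_ne a9 (g _ (lt _ he) _ a6.ne' q)⟩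
    have half : ∀ e ∈ E, T e → ∀ f ∈ E, T f → ¬ w f = f.2 → w e = w f →
        ¬ ht x y e (x (w e)) < ht x y f (x (w e)) := by
      intro e he t f hf t' q' r h
      obtain ⟨a1, a2, a3, a4, a5, a6, a7, a8, a9, a10, a11⟩ := hw e he t
      obtain ⟨b1, b2, b3, b4, b5, b6, b7, b8, b9, b10, b11⟩ := hw f hf t'
      have d := (below f hf t' q').2
      rw [← r] at d
      exact wedge hx g hE hS hn he a1 a2 a4 a6 a7 a8 a11 hf (by rw [r]; exact b6)
        (by rw [r]; exact b7) h (lt_of_lt_of_le d a10)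
    apply card_le_card_of_injOn w
    · intro e he
      obtain ⟨a, _⟩ := mem_filter.mp (mem_coe.mp he)
      obtain ⟨a1, a2⟩ := mem_filter.mp a
      exact mem_coe.mpr (hw e a1 a2).2.2.2.2.1
    · intro e he f hf r
      obtain ⟨a, q⟩ := mem_filter.mp (mem_coe.mp he)
      obtain ⟨he, t⟩ := mem_filter.mp a
      obtain ⟨b, q'⟩ := mem_filter.mp (mem_coe.mp hf)
      obtain ⟨hf, t'⟩ := mem_filter.mp b
      have h1 := half e he t f hf t' q' r
      have h2 := half f hf t' e he t q r.symm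
      rw [← r] at h2
      by_contra n
      exact hn _ he _ hf ⟨n, x (w e), hx (hw e he t).2.2.2.2.2.1, hx (below e he t q).1,
        hx (by rw [r]; exact (hw f hf t').2.2.2.2.2.1), hx (by rw [r]; exact (below f hf t' q').1),
        le_antisymm (not_lt.mp h2) (not_lt.mp h1)⟩
  omega

theorem cs {x y : Fin N → ℝ} (hx : StrictMono x) (g : GP x y) : CS (UU N) (crs x y) where
  symm := fun e f ⟨n, t, a, b, c, d, q⟩ => ⟨n.symm, t, c, d, a, b, q.symm⟩
  two := fun e he => by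
    have := (mem_filter.mp he).2
    convert card_pair this.ne
  four := fun e he f hf ⟨n, t, a, b, c, d, q⟩ => by
    have l1 := (mem_filter.mp he).2
    have l2 := (mem_filter.mp hf).2
    have n1 : e.1 ≠ f.1 := fun r => n (same hx g l1 l2
      (agree x y e f a.ne (by rw [ht1, r, ht1]) q))
    have n2 : e.2 ≠ f.2 := fun r => n (same hx g l1 l2
      (agree x y e f b.ne' (by rw [ht2 hx y l1, r, ht2 hx y l2]) q))
    have n3 : e.1 < f.2 := hx.lt_iff_lt.mp (a.trans d)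
    have n4 : f.1 < e.2 := hx.lt_iff_lt.mp (c.trans b)
    have : ({e.1, e.2, f.1, f.2} : Finset (Fin N)).card = 4 := by
      rw [card_insert_of_notMem, card_insert_of_notMem, card_insert_of_notMem, card_singleton]
      · simp only [mem_singleton]; exact l2.ne
      · simp only [mem_insert, mem_singleton, not_or]; exact ⟨n4.ne', n2⟩
      · simp only [mem_insert, mem_singleton, not_or]; exact ⟨l1.ne, n1, n3.ne⟩
    convert this
  plan := planar hx g

end Pool.Agent.H.MP_a813b7_co
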