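import Mathlib
import Pool.Agent.H.MP_a813b7_co.Plan

set_option autoImplicit false
open Classical Finset Filter Topology

namespace Pool.Agent.H.MP_a813b7_co

theorem int_mem (L M R : ℝ × ℝ) (k d : ℝ) (h : L.1 < R.1) (hk : R.2 = L.2 + k * (R.1 - L.1))
    (hd : M.2 = L.2 + k * (M.1 - L.1) + d) (d0 : d ≠ 0) (t : ℝ) (t1 : L.1 < t) (t2 : t < R.1)
    (u : ℝ) : ∀ᶠ s in 𝓝[>] (0:ℝ), ((t + s * u, L.2 + k * (t - L.1) + s * (d + k * u)) : ℝ × ℝ)
      ∈ interior (convexHull ℝ ({L, M, R} : Set (ℝ × ℝ))) := by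
  have w := sub_pos.mpr h
  set b : ℝ × ℝ → ℝ := fun q => (q.2 - (L.2 + k * (q.1 - L.1))) / d with hb
  set c : ℝ × ℝ → ℝ := fun q => (q.1 - b q * M.1 - (1 - b q) * L.1) / (R.1 - L.1) with hc
  have cb : Continuous b := by rw [hb]; fun_prop
  have cc : Continuous c := by rw [hc]; fun_prop
  have op : IsOpen {q | 0 < b q ∧ 0 < c q ∧ 0 < 1 - b q - c q} :=
    (isOpen_lt continuous_const cb).inter ((isOpen_lt continuous_const cc).inter
      (isOpen_lt continuous_const ((continuous_const.sub cb).sub cc)))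
  have sub : {q | 0 < b q ∧ 0 < c q ∧ 0 < 1 - b q - c q}
      ⊆ convexHull ℝ ({L, M, R} : Set (ℝ × ℝ)) := by
    rintro q ⟨h1, h2, h3⟩
    have := (convex_convexHull ℝ ({L, M, R} : Set (ℝ × ℝ))).sum_mem (t := univ)
      (w := ![1 - b q - c q, b q, c q]) (z := ![L, M, R])
      (by intro i _; fin_cases i <;> simp <;> linarith)
      (by simp [Fin.sum_univ_three]; ring)
      (by intro i _; apply subset_convexHull; fin_cases i <;> simp)
    convert this using 1
    simp only [Fin.sum_univ_three, Matrix.cons_val_zero, Matrix.cons_val_one, Matrix.cons_val_two,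
      Matrix.head_cons, Matrix.tail_cons]
    have e1 : c q * (R.1 - L.1) = q.1 - b q * M.1 - (1 - b q) * L.1 := by
      rw [hc]; field_simp
    have e2 : b q * d = q.2 - (L.2 + k * (q.1 - L.1)) := by
      rw [hb]; field_simp
    apply Prod.ext
    · simp only [Prod.fst_add, Prod.smul_fst, smul_eq_mul]
      linarith
    · simp only [Prod.snd_add, Prod.smul_snd, smul_eq_mul]
      rw [hk, hd]
      linear_combination (-1) * e2 - k * e1
  set z : ℝ → ℝ × ℝ := fun s => (t + s * u, L.2 + k * (t - L.1) + s * (d + k * u)) with hz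
  have cz : Continuous z := by rw [hz]; fun_prop
  have bz : ∀ s, b (z s) = s := fun s => by
    simp only [hb, hz]; field_simp; ring
  have c0 : c (z 0) = (t - L.1) / (R.1 - L.1) := by
    simp only [hc, bz]; simp [hz]
  have e1 : ∀ᶠ s in 𝓝 (0:ℝ), 0 < c (z s) :=
    (cc.comp cz).continuousAt.eventually (lt_mem_nhds (by
      show 0 < c (z 0); rw [c0]; exact div_pos (sub_pos.mpr t1) w))
  have e2 : ∀ᶠ s in 𝓝 (0:ℝ), 0 < 1 - b (z s) - c (z s) :=
    (((continuous_const.sub cb).sub cc).comp cz).continuousAt.eventually (lt_mem_nhds (by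
      show 0 < 1 - b (z 0) - c (z 0)
      rw [c0, bz, sub_zero, sub_pos, div_lt_one w]; linarith))
  filter_upwards [nhdsWithin_le_nhds e1, nhdsWithin_le_nhds e2, self_mem_nhdsWithin] with s a1 a2 a3
  exact interior_maximal sub op ⟨by rw [bz]; exact a3, a1, a2⟩

theorem not_disj {N : ℕ} {x y : Fin N → ℝ} (hx : StrictMono x) (g : GP x y)
    {e f : Fin N × Fin N} (he : e.1 < e.2) (hf : f.1 < f.2) {m m' : Fin N}
    (m1 : m ≠ e.1) (m2 : m ≠ e.2) (m3 : m' ≠ f.1) (m4 : m' ≠ f.2) (h : crs x y e f) :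
    ¬ Disjoint
      (interior (convexHull ℝ ({(x e.1, y e.1), (x m, y m), (x e.2, y e.2)} : Set (ℝ × ℝ))))
      (interior (convexHull ℝ ({(x f.1, y f.1), (x m', y m'), (x f.2, y f.2)} : Set (ℝ × ℝ)))) := by
  obtain ⟨n, t, a, b, c, d, q⟩ := h
  have sn : sl x y f - sl x y e ≠ 0 := by
    intro r
    apply n (same hx g he hf _)
    intro u
    unfold ht at q ⊢
    rw [sub_eq_zero.mp r] at q ⊢
    linarith
  set d1 := y m - ht x y e (x m) with hd1
  set d2 := y m' - ht x y f (x m') with hd2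
  set u := (d1 - d2) / (sl x y f - sl x y e) with hu
  have k1 := int_mem (x e.1, y e.1) (x m, y m) (x e.2, y e.2) (sl x y e) d1 (hx he)
    (ht2 hx y he).symm (by simp only [hd1, ht]; ring) (sub_ne_zero.mpr (g e he m m1 m2).symm)
    t a b u
  have k2 := int_mem (x f.1, y f.1) (x m', y m') (x f.2, y f.2) (sl x y f) d2 (hx hf)
    (ht2 hx y hf).symm (by simp only [hd2, ht]; ring) (sub_ne_zero.mpr (g f hf m' m3 m4).symm)
    t c d u
  obtain ⟨s, s1, s2⟩ := (k1.and k2).exists
  have e1 : d1 + sl x y e * u = d2 + sl x y f * u := by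
    have : u * (sl x y f - sl x y e) = d1 - d2 := by rw [hu]; field_simp
    linarith
  intro D
  apply Set.disjoint_left.mp D s1
  unfold ht at q
  simp only at s2 ⊢
  rw [q, e1]
  exact s2

theorem geom (l c : ℝ) (hl : 0 < l) (M : ℕ) :
    ∑ j : Fin M, Real.exp (-(l * |(j : ℝ) - c|)) ≤ 2 + 2 / l := by
  set r := Real.exp (-l) with hr
  have r0 : 0 ≤ r := (Real.exp_pos _).le
  have r1 : r < 1 := Real.exp_lt_one_iff.mpr (by linarith)
  have sm := summable_geometric_of_lt_one r0 r1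
  have tv := tsum_geometric_of_lt_one r0 r1
  have bd : (1 - r)⁻¹ ≤ 1 + 1 / l := by
    have a1 : r * (1 + l) ≤ 1 := by
      have := Real.add_one_le_exp l
      calc r * (1 + l) ≤ r * Real.exp l := by gcongr; linarith
        _ = 1 := by rw [hr, ← Real.exp_add]; simp
    rw [inv_le_comm₀ (by linarith) (by positivity)]
    have : (1 + 1 / l)⁻¹ = l / (1 + l) := by field_simp; ring
    rw [this, div_le_iff₀ (by linarith)]
    nlinarith
  have gen : ∀ (s : Finset (Fin M)) (φ : Fin M → ℕ), Set.InjOn φ s →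
      (∀ j ∈ s, (φ j : ℝ) ≤ |(j : ℝ) - c|) →
      ∑ j ∈ s, Real.exp (-(l * |(j : ℝ) - c|)) ≤ 1 + 1 / l := by
    intro s φ h1 h2
    calc _ ≤ ∑ j ∈ s, r ^ φ j := by
          apply sum_le_sum
          intro j hj
          rw [hr, ← Real.exp_nat_mul]
          apply Real.exp_le_exp.mpr
          have := mul_le_mul_of_nonneg_left (h2 j hj) hl.le
          linarith
      _ = ∑ i ∈ s.image φ, r ^ i := (sum_image (f := fun i => r ^ i) h1).symm
      _ ≤ ∑' i, r ^ i := sm.sum_le_tsum _ (fun i _ => pow_nonneg r0 i)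
      _ ≤ _ := by rw [tv]; exact bd
  rw [← sum_filter_add_sum_filter_not univ (fun j : Fin M => ⌈c⌉ ≤ ((j : ℕ) : ℤ))]
  have g1 := gen (univ.filter (fun j : Fin M => ⌈c⌉ ≤ ((j : ℕ) : ℤ)))
    (fun j => (((j : ℕ) : ℤ) - ⌈c⌉).toNat) (by
      intro i hi j hj q
      have a := (mem_filter.mp (mem_coe.mp hi)).2
      have b := (mem_filter.mp (mem_coe.mp hj)).2
      simp only at q
      omega) (by
      intro j hj
      have a := (mem_filter.mp hj).2
      have b : (((((j : ℕ) : ℤ) - ⌈c⌉).toNat : ℤ) : ℝ) = ((((j : ℕ) : ℤ) - ⌈c⌉ : ℤ) : ℝ) := by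
        rw [Int.toNat_of_nonneg (by omega)]
      push_cast at b
      rw [b]
      have := Int.le_ceil c
      exact le_trans (by linarith) (le_abs_self _))
  have g2 := gen (univ.filter (fun j : Fin M => ¬ ⌈c⌉ ≤ ((j : ℕ) : ℤ)))
    (fun j => (⌈c⌉ - 1 - ((j : ℕ) : ℤ)).toNat) (by
      intro i hi j hj q
      have a := (mem_filter.mp (mem_coe.mp hi)).2
      have b := (mem_filter.mp (mem_coe.mp hj)).2
      simp only at q
      omega) (by
      intro j hj
      have a := (mem_filter.mp hj).2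
      have b : (((⌈c⌉ - 1 - ((j : ℕ) : ℤ)).toNat : ℤ) : ℝ) = ((⌈c⌉ - 1 - ((j : ℕ) : ℤ) : ℤ) : ℝ) := by
        rw [Int.toNat_of_nonneg (by omega)]
      push_cast at b
      rw [b]
      have := Int.ceil_lt_add_one c
      exact le_trans (by linarith) (neg_le_abs _))
  have : 2 / l = 1 / l + 1 / l := by ring
  linarith

end Pool.Agent.H.MP_a813b7_co
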