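import Mathlib
import Pool.Agent.H.MP_a813b7_co.Geo

set_option autoImplicit false
open Classical Finset

namespace Pool.Agent.H.MP_a813b7_co

noncomputable def xx (N : ℕ) (k : Fin N) : ℝ := (k : ℝ) / N
noncomputable def yv (N M : ℕ) (a : Fin N × Fin M) : ℝ := ((a.2 : ℝ) + (a.1 : ℝ) ^ 2 / N ^ 3) / M
noncomputable def yy {N M : ℕ} (J : Fin N → Fin M) (k : Fin N) : ℝ := yv N M (k, J k)

theorem xx_mono (N : ℕ) : StrictMono (xx N) := by
  intro a b h
  have : (0:ℝ) < N := by exact_mod_cast a.pos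
  unfold xx
  gcongr
  exact_mod_cast h

theorem gp {N M : ℕ} (J : Fin N → Fin M) : GP (xx N) (yy J) := by
  rintro ⟨i, k⟩ h j h1 h2 q
  simp only at h h1 h2
  have Np : (0:ℝ) < N := by exact_mod_cast i.pos
  have Mp : (0:ℝ) < M := by exact_mod_cast (J i).pos
  have ik : (0:ℝ) < (k : ℝ) - i := by
    have : ((i : ℕ) : ℝ) < (k : ℕ) := by exact_mod_cast h
    linarith
  have w : xx N k - xx N i = ((k : ℝ) - i) / N := by unfold xx; ring
  have q2 : (yy J k - yy J i) * (xx N j - xx N i) = (yy J j - yy J i) * (xx N k - xx N i) := by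
    unfold ht sl at q
    simp only at q
    have : xx N k - xx N i ≠ 0 := by rw [w]; positivity
    rw [← q]; field_simp; ring
  have q3 : ((((J k : ℕ) : ℝ) - (J i : ℕ)) * ((j : ℕ) - (i : ℕ))
      - (((J j : ℕ) : ℝ) - (J i : ℕ)) * ((k : ℕ) - (i : ℕ))) * (N : ℝ) ^ 3
      = -((((k : ℕ) : ℝ) - (i : ℕ)) * ((j : ℕ) - (i : ℕ)) * ((k : ℕ) - (j : ℕ))) := by
    unfold yy yv xx at q2
    simp only at q2
    field_simp at q2
    linear_combination q2
  have q4 : ((((J k : ℕ) : ℤ) - (J i : ℕ)) * ((j : ℕ) - (i : ℕ))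
      - (((J j : ℕ) : ℤ) - (J i : ℕ)) * ((k : ℕ) - (i : ℕ))) * (N : ℤ) ^ 3
      = -((((k : ℕ) : ℤ) - (i : ℕ)) * ((j : ℕ) - (i : ℕ)) * ((k : ℕ) - (j : ℕ))) := by
    exact_mod_cast q3
  have b : ∀ u v : Fin N, u ≠ v → 0 < |((u : ℕ) : ℤ) - (v : ℕ)| ∧ |((u : ℕ) : ℤ) - (v : ℕ)| < N := by
    intro u v n
    have := u.isLt
    have := v.isLt
    have : u.val ≠ v.val := fun r => n (Fin.ext r)
    refine ⟨abs_pos.mpr (by omega), abs_lt.mpr ⟨by omega, by omega⟩⟩
  obtain ⟨a1, a2⟩ := b k i h.ne'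
  obtain ⟨a3, a4⟩ := b j i h1
  obtain ⟨a5, a6⟩ := b k j h2.symm
  have q5 := congrArg abs q4
  rw [abs_neg, abs_mul, abs_mul, abs_mul, abs_of_nonneg (a := (N : ℤ) ^ 3) (by positivity)] at q5
  have p1 := mul_pos (mul_pos a1 a3) a5
  have p2 : |((k : ℕ) : ℤ) - (i : ℕ)| * |((j : ℕ) : ℤ) - (i : ℕ)| * |((k : ℕ) : ℤ) - (j : ℕ)|
      < (N : ℤ) ^ 3 := by
    calc _ < (N : ℤ) * N * N := by gcongr
      _ = _ := by ring
  rw [← q5] at p1 p2
  have p3 : (0 : ℤ) < (N : ℤ) ^ 3 := by have := i.pos; positivity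
  have p4 := (mul_pos_iff_of_pos_right p3).mp p1
  have p5 := mul_le_mul_of_nonneg_right (Int.add_one_le_of_lt p4) p3.le
  linarith

noncomputable def ar {N M : ℕ} (J : Fin N → Fin M) (e : Fin N × Fin N) (a : Fin N × Fin M) : ℝ :=
  (xx N e.2 - xx N e.1) * |yv N M a - ht (xx N) (yy J) e (xx N a.1)| / 2

noncomputable def W {N M : ℕ} (t : ℝ) (J : Fin N → Fin M) (e : Fin N × Fin N)
    (a : Fin N × Fin M) : ℝ :=
  if e.1 < a.1 ∧ a.1 < e.2 then Real.exp (-(t * ar J e a)) else 0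

theorem W_nonneg {N M : ℕ} (t : ℝ) (J : Fin N → Fin M) (e : Fin N × Fin N)
    (a : Fin N × Fin M) : 0 ≤ W t J e a := by
  unfold W; split_ifs
  · exact (Real.exp_pos _).le
  · exact le_refl _

theorem W_sum {N M : ℕ} (t : ℝ) (ht0 : 0 < t) (J : Fin N → Fin M) (e : Fin N × Fin N) :
    ∑ a, W t J e a ≤ 2 * N + 4 * N * M / t := by
  have Np : (0:ℝ) < N := by exact_mod_cast e.1.pos
  have Mp : (0:ℝ) < M := by exact_mod_cast (J e.1).pos
  by_cases h : e.1 < e.2
  swap
  · rw [sum_eq_zero]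
    · positivity
    · intro a _
      exact if_neg fun c => h (c.1.trans c.2)
  set D : ℝ := (e.2 : ℝ) - e.1 with hD
  have Dp : 0 < D := by
    have : ((e.1 : ℕ) : ℝ) < (e.2 : ℕ) := by exact_mod_cast h
    linarith
  have DN : D ≤ N := by
    have : ((e.2 : ℕ) : ℝ) ≤ N := by exact_mod_cast e.2.isLt.le
    have : (0:ℝ) ≤ (e.1 : ℕ) := Nat.cast_nonneg _
    linarith
  rw [Fintype.sum_prod_type]
  have h1 : ∀ j : Fin N, ∑ v : Fin M, W t J e (j, v)
      ≤ if j ∈ Ioo e.1 e.2 then 2 + 2 / (t * D / (2 * N * M)) else 0 := by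
    intro j
    by_cases c : e.1 < j ∧ j < e.2
    · rw [if_pos (mem_Ioo.mpr c)]
      refine le_trans (le_of_eq ?_) (geom (t * D / (2 * N * M))
        (ht (xx N) (yy J) e (xx N j) * M - (j : ℝ) ^ 2 / N ^ 3) (by positivity) M)
      apply sum_congr rfl
      intro v _
      unfold W
      rw [if_pos c]
      congr 2
      unfold ar
      have e1 : xx N e.2 - xx N e.1 = D / N := by unfold xx; rw [hD]; ring
      have e2 : yv N M (j, v) - ht (xx N) (yy J) e (xx N j)
          = ((v : ℝ) - (ht (xx N) (yy J) e (xx N j) * M - (j : ℝ) ^ 2 / N ^ 3)) / M := by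
        unfold yv; field_simp; ring
      rw [e1, e2, abs_div, abs_of_pos Mp]
      field_simp
    · rw [if_neg (fun q => c (mem_Ioo.mp q))]
      apply le_of_eq
      apply sum_eq_zero
      intro v _
      exact if_neg c
  refine (sum_le_sum fun j _ => h1 j).trans ?_
  rw [sum_ite_mem, univ_inter, sum_const, nsmul_eq_mul]
  have c1 : ((Ioo e.1 e.2).card : ℝ) ≤ D := by
    have : (Ioo e.1 e.2).card + e.1.val ≤ e.2.val := by
      rw [Fin.card_Ioo]; omega
    have : ((Ioo e.1 e.2).card : ℝ) + (e.1 : ℕ) ≤ (e.2 : ℕ) := by exact_mod_cast this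
    linarith
  calc _ ≤ D * (2 + 2 / (t * D / (2 * N * M))) := by gcongr
    _ = 2 * D + 4 * N * M / t := by field_simp; ring
    _ ≤ _ := by linarith

noncomputable def en {N : ℕ} (n : ℕ) (d : Fin N) (E : Finset (Fin N × Fin N)) (i : Fin n) :
    Fin N × Fin N :=
  if h : E.card = n then ((E.equivFinOfCardEq h).symm i).1 else (d, d)

theorem Q_card {N M : ℕ} (n : ℕ) (z : Fin M) :
    (univ.filter (fun q : Finset (Fin N) × (Fin N → Fin M) =>
      q.1.card = n ∧ ∀ k ∈ q.1, q.2 k = z)).card ≤ 2 ^ N * M ^ (N - n) := by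
  rw [card_filter, Fintype.sum_prod_type]
  have : ∀ A : Finset (Fin N), ∑ J : Fin N → Fin M,
      (if A.card = n ∧ ∀ k ∈ A, J k = z then 1 else 0) ≤ M ^ (N - n) := by
    intro A
    by_cases h : A.card = n
    · rw [← card_filter]
      have : (univ.filter (fun J : Fin N → Fin M => A.card = n ∧ ∀ k ∈ A, J k = z))
          ⊆ Fintype.piFinset (fun k => if k ∈ A then {z} else univ) := by
        intro J hJ
        rw [Fintype.mem_piFinset]
        intro k
        split_ifs with c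
        · exact mem_singleton.mpr ((mem_filter.mp hJ).2.2 k c)
        · exact mem_univ _
      refine (card_le_card this).trans (le_of_eq ?_)
      rw [Fintype.card_piFinset]
      have e : ∀ k : Fin N, (if k ∈ A then ({z} : Finset (Fin M)) else univ).card
          = if k ∈ Aᶜ then M else 1 := by
        intro k
        by_cases c : k ∈ A <;> simp [c]
      simp only [e]
      rw [prod_ite_mem, univ_inter, prod_const, card_compl, Fintype.card_fin, h]
    · simp [h]
  refine (sum_le_card_nsmul _ _ _ (fun A _ => this A)).trans ?_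
  simp

theorem total {N M : ℕ} (n : ℕ) (z : Fin M) (d : Fin N) (t : ℝ) (ht0 : 0 < t) :
    ∑ q : (Finset (Fin N) × (Fin N → Fin M)) × Finset (Fin N × Fin N) × (Fin n → Fin N × Fin M),
      (if (q.1.1.card = n ∧ ∀ k ∈ q.1.1, q.1.2 k = z) ∧ q.2.1 ∈ NC (crs (xx N) (yy q.1.2)) (UU N)
        then ∏ i, W t q.1.2 (en n d q.2.1 i) (q.2.2 i) else 0)
      ≤ 2 ^ N * M ^ (N - n) * ((2 ^ 32 * Real.exp 128) ^ N * (2 * N + 4 * N * M / t) ^ n) := by
  set B : ℝ := (2 * N + 4 * N * M / t) ^ n with hB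
  have B0 : 0 ≤ B := by positivity
  rw [Fintype.sum_prod_type]
  have h1 : ∀ p : Finset (Fin N) × (Fin N → Fin M),
      ∑ q : Finset (Fin N × Fin N) × (Fin n → Fin N × Fin M),
      (if (p.1.card = n ∧ ∀ k ∈ p.1, p.2 k = z) ∧ q.1 ∈ NC (crs (xx N) (yy p.2)) (UU N)
        then ∏ i, W t p.2 (en n d q.1 i) (q.2 i) else 0)
      ≤ if (p.1.card = n ∧ ∀ k ∈ p.1, p.2 k = z) then (2 ^ 32 * Real.exp 128) ^ N * B else 0 := by
    intro p
    by_cases c : p.1.card = n ∧ ∀ k ∈ p.1, p.2 k = z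
    swap
    · simp only [c, false_and, if_false, sum_const_zero, le_refl]
    rw [if_pos c, Fintype.sum_prod_type]
    have h2 : ∀ E : Finset (Fin N × Fin N), ∑ a : Fin n → Fin N × Fin M,
        (if (p.1.card = n ∧ ∀ k ∈ p.1, p.2 k = z) ∧ E ∈ NC (crs (xx N) (yy p.2)) (UU N)
          then ∏ i, W t p.2 (en n d E i) (a i) else 0)
        ≤ if E ∈ NC (crs (xx N) (yy p.2)) (UU N) then B else 0 := by
      intro E
      by_cases c2 : E ∈ NC (crs (xx N) (yy p.2)) (UU N)
      swap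
      · simp only [c2, and_false, if_false, sum_const_zero, le_refl]
      simp only [c2, if_true, and_true, if_pos c]
      rw [← Fintype.prod_sum (fun i a => W t p.2 (en n d E i) a)]
      calc _ ≤ ∏ _i : Fin n, (2 * N + 4 * N * M / t : ℝ) :=
            prod_le_prod (fun i _ => sum_nonneg fun a _ => W_nonneg _ _ _ _)
              (fun i _ => W_sum t ht0 _ _)
        _ = B := by simp [hB]
    refine (sum_le_sum fun E _ => h2 E).trans ?_
    rw [sum_ite_mem, univ_inter, sum_const, nsmul_eq_mul]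
    have := NC_le (cs (xx_mono N) (gp p.2))
    rw [Fintype.card_fin] at this
    exact mul_le_mul_of_nonneg_right this B0
  refine (sum_le_sum fun p _ => h1 p).trans ?_
  rw [← sum_filter, sum_const, nsmul_eq_mul]
  apply mul_le_mul_of_nonneg_right _ (by positivity)
  exact_mod_cast Q_card n z

theorem mem_NC {V : Type} [Fintype V] (cr : V × V → V × V → Prop) (E F : Finset (V × V)) :
    F ∈ NC cr E ↔ F ⊆ E ∧ ∀ e ∈ F, ∀ f ∈ F, ¬ cr e f := by
  unfold NC
  rw [mem_filter, mem_powerset]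

theorem enc {N M : ℕ} (n : ℕ) (z : Fin M) (d : Fin N) (t s : ℝ) (ht0 : 0 < t) (J : Fin N → Fin M)
    (l m r : Fin n → Fin N) (c : Fin N → Fin n) (hl : ∀ i, c (l i) = i) (hm : ∀ i, c (m i) = i)
    (hr : ∀ i, c (r i) = i) (h1 : ∀ i, l i < m i) (h2 : ∀ i, m i < r i)
    (hn : ∀ i j, ¬ crs (xx N) (yy J) (l i, r i) (l j, r j))
    (hs : ∑ i, ar J (l i, r i) (m i, J (m i)) ≤ s) :
    ∃ q : (Finset (Fin N) × (Fin N → Fin M)) × Finset (Fin N × Fin N) × (Fin n → Fin N × Fin M),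
      ((q.1.1.card = n ∧ ∀ k ∈ q.1.1, q.1.2 k = z) ∧ q.2.1 ∈ NC (crs (xx N) (yy q.1.2)) (UU N)) ∧
      Real.exp (-(t * s)) ≤ ∏ i, W t q.1.2 (en n d q.2.1 i) (q.2.2 i) ∧
      J = fun k => if h : ∃ i, (q.2.2 i).1 = k then (q.2.2 h.choose).2 else q.1.2 k := by
  set A := univ.image m with hA
  set J0 : Fin N → Fin M := fun k => if k ∈ A then z else J k with hJ
  set E := univ.image (fun i => (l i, r i)) with hE
  have mi : Function.Injective m := fun i j q => by rw [← hm i, q, hm]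
  have ei : Function.Injective (fun i => (l i, r i)) := fun i j q => by
    have e : l i = l j := congrArg Prod.fst q
    rw [← hl i, e, hl]
  have Ec : E.card = n := by rw [hE, card_image_of_injective _ ei, card_univ, Fintype.card_fin]
  have lA : ∀ i, l i ∉ A := fun i q => by
    obtain ⟨j, _, e⟩ := mem_image.mp q
    have : j = i := by rw [← hm j, e, hl]
    rw [this] at e; exact (h1 i).ne' e
  have rA : ∀ i, r i ∉ A := fun i q => by
    obtain ⟨j, _, e⟩ := mem_image.mp q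
    have : j = i := by rw [← hm j, e, hr]
    rw [this] at e; exact (h2 i).ne e
  have hte : ∀ i, ht (xx N) (yy J0) (l i, r i) = ht (xx N) (yy J) (l i, r i) := by
    intro i
    funext u
    simp only [ht, sl, yy, hJ, if_neg (lA i), if_neg (rA i)]
  have ex : ∀ i, ∃ j, en n d E i = (l j, r j) := by
    intro i
    unfold en
    rw [dif_pos Ec]
    obtain ⟨j, _, e⟩ := mem_image.mp ((E.equivFinOfCardEq Ec).symm i).2
    exact ⟨j, e.symm⟩
  choose τ hτ using ex
  have τi : Function.Injective τ := by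
    intro i j q
    have : en n d E i = en n d E j := by rw [hτ, hτ, q]
    unfold en at this
    rw [dif_pos Ec, dif_pos Ec] at this
    exact (E.equivFinOfCardEq Ec).symm.injective (Subtype.ext this)
  have τb := Finite.injective_iff_bijective.mp τi
  refine ⟨((A, J0), E, fun i => (m (τ i), J (m (τ i)))), ⟨⟨?_, ?_⟩, ?_⟩, ?_, ?_⟩
  · show A.card = n
    rw [hA, card_image_of_injective _ mi, card_univ, Fintype.card_fin]
  · intro k hk
    exact if_pos hk
  · refine (mem_NC _ _ _).mpr ⟨?_, ?_⟩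
    · intro e he
      obtain ⟨j, _, rfl⟩ := mem_image.mp he
      exact mem_filter.mpr ⟨mem_univ _, (h1 j).trans (h2 j)⟩
    · intro e he f hf q
      obtain ⟨i, _, rfl⟩ := mem_image.mp he
      obtain ⟨j, _, rfl⟩ := mem_image.mp hf
      apply hn i j
      unfold crs at q ⊢
      simp only at q
      rw [hte, hte] at q
      exact q
  · have e : ∀ i, W t J0 (en n d E i) (m (τ i), J (m (τ i)))
        = Real.exp (-(t * ar J (l (τ i), r (τ i)) (m (τ i), J (m (τ i))))) := by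
      intro i
      rw [hτ]
      unfold W
      rw [if_pos ⟨h1 _, h2 _⟩]
      unfold ar
      rw [hte]
    simp only [e]
    rw [← Real.exp_sum]
    apply Real.exp_le_exp.mpr
    rw [τb.sum_comp (fun i => -(t * ar J (l i, r i) (m i, J (m i)))), sum_neg_distrib, ← mul_sum]
    have := mul_le_mul_of_nonneg_left hs ht0.le
    linarith
  · funext k
    by_cases h : ∃ i, m (τ i) = k
    · simp only [dif_pos h]
      rw [h.choose_spec]
    · simp only [dif_neg h]
      show J k = if k ∈ A then z else J k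
      rw [if_neg]
      intro q
      obtain ⟨j, _, e⟩ := mem_image.mp q
      obtain ⟨i, rfl⟩ := τb.2 j
      exact h ⟨i, e⟩

theorem le_inj {α β : Type} [Fintype α] [Fintype β] (Φ : α → β) (inj : Function.Injective Φ)
    (g : β → ℝ) (hg : ∀ b, 0 ≤ g b) : ∑ a, g (Φ a) ≤ ∑ b, g b := by
  rw [← sum_image (f := g) inj.injOn]
  exact sum_le_sum_of_subset_of_nonneg (subset_univ _) fun b _ _ => hg b

theorem count {N M : ℕ} (n : ℕ) (z : Fin M) (d : Fin N) (t s : ℝ) (ht0 : 0 < t)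
    (h : ∀ J : Fin N → Fin M, ∃ (l m r : Fin n → Fin N) (c : Fin N → Fin n),
      (∀ i, c (l i) = i) ∧ (∀ i, c (m i) = i) ∧ (∀ i, c (r i) = i) ∧ (∀ i, l i < m i) ∧
      (∀ i, m i < r i) ∧ (∀ i j, ¬ crs (xx N) (yy J) (l i, r i) (l j, r j)) ∧
      ∑ i, ar J (l i, r i) (m i, J (m i)) ≤ s) :
    (M : ℝ) ^ N * Real.exp (-(t * s))
      ≤ 2 ^ N * M ^ (N - n) * ((2 ^ 32 * Real.exp 128) ^ N * (2 * N + 4 * N * M / t) ^ n) := by
  refine le_trans ?_ (total n z d t ht0)
  choose l m r c a1 a2 a3 a4 a5 a6 a7 using h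
  have ex := fun J => enc n z d t s ht0 J (l J) (m J) (r J) (c J) (a1 J) (a2 J) (a3 J) (a4 J)
    (a5 J) (a6 J) (a7 J)
  choose Φ p1 p2 p3 using ex
  have inj : Function.Injective Φ := fun J J' q => by rw [p3 J, p3 J', q]
  have s1 : (M : ℝ) ^ N * Real.exp (-(t * s)) = ∑ _J : Fin N → Fin M, Real.exp (-(t * s)) := by
    simp
  rw [s1]
  refine le_trans (sum_le_sum fun J _ => ?_) (le_inj Φ inj _ ?_)
  · rw [if_pos (p1 J)]
    exact p2 J
  · intro q
    split_ifs
    · exact prod_nonneg fun i _ => W_nonneg _ _ _ _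
    · exact le_refl _

end Pool.Agent.H.MP_a813b7_co
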